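import Mathlib

set_option autoImplicit false
open TensorProduct MulOpposite Polynomial Function

namespace Pool.Agent.Results.MP_d8e1db_al.Infinite

/-- a Hopf subalgebra of E: a Hopf algebra with an injective bialgebra map to E -/
structure Sub (k E : Type) [Field k] [Ring E] [HopfAlgebra k E] where
  carrier : Type
  [ring : Ring carrier]
  [hopf : HopfAlgebra k carrier]
  incl : carrier →ₐc[k] E
  inj : Injective incl

attribute [instance] Sub.ring Sub.hopf

/-- the map a tensor h to i(a) j(h) -/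
noncomputable def mul2 {k E A H : Type} [Field k] [Ring E] [Algebra k E] [AddCommGroup A]
    [Module k A] [AddCommGroup H] [Module k H] (i : A →ₗ[k] E) (j : H →ₗ[k] E) : A ⊗[k] H → E :=
  LinearMap.mul' k E ∘ₗ TensorProduct.map i j

def IsCompl {k E : Type} [Field k] [Ring E] [HopfAlgebra k E] (A H : Sub k E) : Prop :=
  Bijective (mul2 A.incl.toLinearMap H.incl.toLinearMap)

def Iso {k E : Type} [Field k] [Ring E] [HopfAlgebra k E] (H H' : Sub k E) : Prop :=
  Nonempty (H.carrier ≃ₐc[k] H'.carrier)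

structure Prim (k U ι : Type) [Field k] [Ring U] [Algebra k U] where
  g : ι → U
  gen : Algebra.adjoin k (Set.range g) = ⊤
  Δ : U →ₐ[k] U ⊗[k] U
  ε : U →ₐ[k] k
  S : U →ₐ[k] Uᵐᵒᵖ
  hΔ : ∀ i, Δ (g i) = g i ⊗ₜ 1 + 1 ⊗ₜ g i
  hε : ∀ i, ε (g i) = 0
  hS : ∀ i, S (g i) = op (-g i)

section
variable {k U ι : Type} [Field k] [Ring U] [Algebra k U] (P : Prim k U ι)

lemma Prim.ext {V : Type} [Ring V] [Algebra k V] {φ ψ : U →ₐ[k] V}
    (h : ∀ i, φ (P.g i) = ψ (P.g i)) : φ = ψ :=
  AlgHom.ext_of_adjoin_eq_top P.gen (by rintro _ ⟨i, rfl⟩; exact h i)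

noncomputable abbrev Prim.bi : Bialgebra k U := .ofAlgHom P.Δ P.ε
  (P.ext fun i => by simp [P.hΔ, add_tmul, tmul_add, Algebra.TensorProduct.one_def, add_assoc])
  (P.ext fun i => by simp [P.hΔ, P.hε]) (P.ext fun i => by simp [P.hΔ, P.hε])

noncomputable def Prim.s : U →ₗ[k] U := (opLinearEquiv k).symm.toLinearMap ∘ₗ P.S.toLinearMap

lemma Prim.key (m : U ⊗[k] U →ₗ[k] U) (h1 : m 1 = 1) (h2 : ∀ i, m (P.Δ (P.g i)) = 0)
    (h3 : ∀ a b c d, m (P.Δ a) = algebraMap k U c → m (P.Δ b) = algebraMap k U d →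
      m (P.Δ a * P.Δ b) = algebraMap k U (c * d)) (a : U) :
    m (P.Δ a) = algebraMap k U (P.ε a) := by
  have : a ∈ Algebra.adjoin k (Set.range P.g) := P.gen ▸ trivial
  induction this using Algebra.adjoin_induction with
  | mem _ h => obtain ⟨i, rfl⟩ := h; simp [h2, P.hε]
  | algebraMap r => rw [AlgHom.commutes, AlgHom.commutes, Algebra.algebraMap_eq_smul_one, map_smul,
      h1, Algebra.algebraMap_eq_smul_one]; rfl
  | add _ _ _ _ a b => simp [a, b]
  | mul _ _ _ _ a b => rw [map_mul P.Δ, map_mul P.ε, h3 _ _ _ _ a b]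

noncomputable abbrev Prim.hopf : HopfAlgebra k U :=
  letI := P.bi
  { antipode := P.s
    mul_antipode_rTensor_comul := LinearMap.ext fun a =>
      P.key (LinearMap.mul' k U ∘ₗ P.s.rTensor U) (by simp [Algebra.TensorProduct.one_def, Prim.s])
        (fun i => by simp [P.hΔ, Prim.s, P.hS]) (fun a b c d ha hb => by
          rw [map_mul (algebraMap k U), ← hb, ← Algebra.smul_def]
          generalize P.Δ b = t
          induction t with
          | zero => simp
          | add _ _ h h' => simp only [mul_add, map_add, h, h', smul_add]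
          | tmul x y =>
            have : ∀ t, (LinearMap.mul' k U ∘ₗ P.s.rTensor U) (t * x ⊗ₜ y) =
                P.s x * (LinearMap.mul' k U ∘ₗ P.s.rTensor U) t * y := fun t => by
              induction t with
              | zero => simp
              | add _ _ h h' => simp only [mul_add, add_mul, map_add, h, h']
              | tmul _ _ => simp [Prim.s, mul_assoc]
            rw [this, ha]
            simp [Algebra.algebraMap_eq_smul_one]) a
    mul_antipode_lTensor_comul := LinearMap.ext fun a =>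
      P.key (LinearMap.mul' k U ∘ₗ P.s.lTensor U) (by simp [Algebra.TensorProduct.one_def, Prim.s])
        (fun i => by simp [P.hΔ, Prim.s, P.hS]) (fun a b c d ha hb => by
          rw [mul_comm c, map_mul (algebraMap k U), ← ha, ← Algebra.smul_def]
          generalize P.Δ a = t
          induction t with
          | zero => simp
          | add _ _ h h' => simp only [add_mul, map_add, h, h', smul_add]
          | tmul x y =>
            have : ∀ t, (LinearMap.mul' k U ∘ₗ P.s.lTensor U) (x ⊗ₜ y * t) =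
                x * (LinearMap.mul' k U ∘ₗ P.s.lTensor U) t * P.s y := fun t => by
              induction t with
              | zero => simp
              | add _ _ h h' => simp only [mul_add, add_mul, map_add, h, h']
              | tmul _ _ => simp [Prim.s, mul_assoc]
            rw [this, hb]
            simp [Algebra.algebraMap_eq_smul_one]) a }
end

abbrev K : Type := RatFunc (ZMod 2)

lemma two {R : Type} [AddCommGroup R] [Module K R] (r : R) : r + r = 0 := by
  rw [← two_smul K, show (2 : K) = 0 from CharTwo.two_eq_zero, zero_smul]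

noncomputable def f (a b c : K) : K[X] := C a * X ^ 4 + C b * X ^ 2 + C c * X

lemma ev {R : Type} [Ring R] [Algebra K R] (a b c : K) (r : R) :
    aeval r (f a b c) = a • r ^ 4 + b • r ^ 2 + c • r := by simp [f, Algebra.smul_def]

lemma sq2 {R : Type} [Ring R] [Algebra K R] {u v : R} (h : Commute u v) :
    (u + v) ^ 2 = u ^ 2 + v ^ 2 := by
  linear_combination (norm := noncomm_ring) two (u * v) - h.eq

lemma pow4 {R : Type} [Ring R] [Algebra K R] {u v : R} (h : Commute u v) :
    (u + v) ^ 4 = u ^ 4 + v ^ 4 := by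
  rw [show 4 = 2 * 2 from rfl, pow_mul, sq2 h, sq2 (h.pow_pow 2 2), pow_mul, pow_mul]

def P (a b c : K) : Type := AdjoinRoot (f a b c)
noncomputable instance (a b c : K) : CommRing (P a b c) :=
  inferInstanceAs (CommRing (AdjoinRoot _))
noncomputable instance (a b c : K) : Algebra K (P a b c) :=
  inferInstanceAs (Algebra K (AdjoinRoot _))
noncomputable def z (a b c : K) : P a b c := AdjoinRoot.root _

lemma hz (a b c : K) : a • z a b c ^ 4 + b • z a b c ^ 2 + c • z a b c = 0 :=
  (ev a b c _).symm.trans ((AdjoinRoot.aeval_eq (f a b c)).trans AdjoinRoot.mk_self)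

noncomputable def lf {R : Type} [Ring R] [Algebra K R] {a b c : K} (r : R)
    (h : a • r ^ 4 + b • r ^ 2 + c • r = 0) : P a b c →ₐ[K] R :=
  Ideal.Quotient.liftₐ _ (aeval r) fun p hp => by
    obtain ⟨q, rfl⟩ := Ideal.mem_span_singleton.1 hp
    rw [map_mul, ev, h, zero_mul]

@[simp] lemma lf_z {R : Type} [Ring R] [Algebra K R] {a b c : K} (r : R)
    (h : a • r ^ 4 + b • r ^ 2 + c • r = 0) : lf r h (z a b c) = r := aeval_X r

noncomputable def pP (a b c : K) : Prim K (P a b c) Unit where
  g _ := z a b c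
  gen := by rw [Set.range_const]; exact AdjoinRoot.adjoinRoot_eq_top
  Δ := lf (z a b c ⊗ₜ 1 + 1 ⊗ₜ z a b c) (by
    rw [sq2 (.all _ _), pow4 (.all _ _)]
    have h1 := congrArg (· ⊗ₜ[K] (1 : P a b c)) (hz a b c)
    have h2 := congrArg ((1 : P a b c) ⊗ₜ[K] ·) (hz a b c)
    simp only [add_tmul, tmul_add, ← smul_tmul', tmul_smul, zero_tmul, tmul_zero] at h1 h2
    simp only [Algebra.TensorProduct.tmul_pow, one_pow, smul_add]
    linear_combination h1 + h2)
  ε := lf 0 (by simp)
  S := lf (op (z a b c)) (unop_injective (by simpa using hz a b c))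
  hΔ _ := lf_z _ _
  hε _ := lf_z _ _
  hS _ := (lf_z _ _).trans (congrArg op (eq_neg_of_add_eq_zero_left (two _)))

noncomputable instance (a b c : K) : HopfAlgebra K (P a b c) := (pP a b c).hopf

def Rel {R : Type} [Ring R] (x y : R) : Prop := x ^ 2 = x ∧ y ^ 4 = y ^ 2 ∧ x * y = y * x + y

open FreeAlgebra in
inductive rel : FreeAlgebra K Bool → FreeAlgebra K Bool → Prop
  | a : rel (ι K true ^ 2) (ι K true)
  | b : rel (ι K false ^ 4) (ι K false ^ 2)
  | c : rel (ι K true * ι K false) (ι K false * ι K true + ι K false)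

def E : Type := RingQuot rel
noncomputable instance : Ring E := inferInstanceAs (Ring (RingQuot _))
noncomputable instance : Algebra K E := inferInstanceAs (Algebra K (RingQuot _))
noncomputable def mk : FreeAlgebra K Bool →ₐ[K] E := RingQuot.mkAlgHom K rel
noncomputable def g (b : Bool) : E := mk (FreeAlgebra.ι K b)

lemma relE : Rel (g true) (g false) :=
  ⟨by simpa only [map_pow] using! RingQuot.mkAlgHom_rel K rel.a,
    by simpa only [map_pow] using! RingQuot.mkAlgHom_rel K rel.b,
    by simpa only [map_mul, map_add] using! RingQuot.mkAlgHom_rel K rel.c⟩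

noncomputable def lE {R : Type} [Ring R] [Algebra K R] (v : Bool → R) (h : Rel (v true) (v false)) :
    E →ₐ[K] R := RingQuot.liftAlgHom K ⟨FreeAlgebra.lift K v, by
  rintro _ _ (_ | _ | _) <;> simp [h.1, h.2.1, h.2.2]⟩

@[simp] lemma lE_g {R : Type} [Ring R] [Algebra K R] (v : Bool → R) (h : Rel (v true) (v false))
    (b : Bool) : lE v h (g b) = v b :=
  (RingQuot.liftAlgHom_mkAlgHom_apply K _ _ _).trans (FreeAlgebra.lift_ι_apply _ _)

noncomputable def pE : Prim K E Bool where
  g := g
  gen := by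
    rw [show Set.range g = mk '' Set.range (FreeAlgebra.ι K) by rw [← Set.range_comp]; rfl,
      Algebra.adjoin_image, FreeAlgebra.adjoin_range_ι, Algebra.map_top, AlgHom.range_eq_top]
    exact RingQuot.mkAlgHom_surjective K rel
  Δ := lE (fun b => g b ⊗ₜ 1 + 1 ⊗ₜ g b) (by
    obtain ⟨h1, h2, h3⟩ := relE
    have c : ∀ b, Commute (g b ⊗ₜ[K] (1 : E)) (1 ⊗ₜ g b) := fun b => by simp [Commute, SemiconjBy]
    refine ⟨?_, ?_, ?_⟩
    · simp [sq2 (c _), h1]
    · simp [sq2 (c _), pow4 (c _), h2]
    · simp only [add_mul, mul_add, Algebra.TensorProduct.tmul_mul_tmul, h3, mul_one, one_mul,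
        add_tmul, tmul_add]
      abel)
  ε := lE (fun _ => 0) (by simp [Rel])
  S := lE (fun b => op (g b)) ⟨unop_injective relE.1, unop_injective (by simpa using relE.2.1),
    unop_injective (by simp [relE.2.2, add_assoc, two])⟩
  hΔ _ := lE_g _ _ _
  hε _ := lE_g _ _ _
  hS _ := (lE_g _ _ _).trans (congrArg op (eq_neg_of_add_eq_zero_left (two _)))

noncomputable instance : HopfAlgebra K E := pE.hopf

noncomputable def hom {a b c : K} (r : E) (h : a • r ^ 4 + b • r ^ 2 + c • r = 0)
    (h1 : pE.ε r = 0) (h2 : pE.Δ r = r ⊗ₜ 1 + 1 ⊗ₜ r) : P a b c →ₐc[K] E :=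
  .ofAlgHom (lf r h) ((pP a b c).ext fun _ => by
    exact (congrArg pE.ε (lf_z r h)).trans (h1.trans ((pP a b c).hε ()).symm))
    ((pP a b c).ext fun _ => by
      refine (congrArg (Algebra.TensorProduct.map (lf r h) (lf r h)) ((pP a b c).hΔ ())).trans
        (Eq.trans ?_ ((congrArg pE.Δ (lf_z r h)).trans h2).symm)
      simp [pP])

noncomputable def iA : P 0 1 1 →ₐc[K] E :=
  hom (g true) (by simp [relE.1, two]) (pE.hε true) (pE.hΔ true)

lemma zsq (u : K) : (g true + u • g false) ^ 2 = g true + u • g false + u ^ 2 • g false ^ 2 := by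
  obtain ⟨h1, -, h3⟩ := relE
  rw [sq, add_mul, mul_add, mul_add, ← sq, h1, mul_smul_comm, h3, smul_mul_assoc, smul_mul_smul_comm,
    smul_add, sq, sq]
  linear_combination (norm := abel1) two (u • (g false * g true))

noncomputable def jH (u : K) : P 1 (1 + u ^ 2) (u ^ 2) →ₐc[K] E :=
  hom (g true + u • g false) (by
    have h1 := zsq u
    have h2 : (u ^ 2 • g false ^ 2) ^ 2 = u ^ 2 • u ^ 2 • g false ^ 2 := by
      rw [_root_.smul_pow, ← pow_mul (g false), relE.2.1, sq (u ^ 2), mul_smul]
    generalize g true + u • g false = r at *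
    rw [show u ^ 2 • g false ^ 2 = r ^ 2 + r by
      linear_combination (norm := abel1) -h1 - two r, sq2 (Commute.self_pow r 2).symm,
      ← pow_mul] at h2
    rw [one_smul, add_smul, one_smul]
    linear_combination (norm := (simp only [smul_add]; abel1)) h2 + two (u ^ 2 • (r ^ 2 + r)))
    (by simp [pE.hε, show g = pE.g from rfl])
    (by simp only [map_add, map_smul, pE.hΔ, show g = pE.g from rfl, add_tmul, tmul_add, smul_add,
      tmul_smul, smul_tmul']; abel)

lemma rk {a b c : K} {n : ℕ} (h : (f a b c).natDegree = n + 1) :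
    Module.Finite K (P a b c) ∧ Module.finrank K (P a b c) = n + 1 :=
  have : f a b c ≠ 0 := fun e => by simp [e] at h
  ⟨(AdjoinRoot.powerBasis this).finite, (AdjoinRoot.powerBasis this).finrank.trans h⟩

lemma rkA : Module.Finite K (P 0 1 1) ∧ Module.finrank K (P 0 1 1) = 2 :=
  rk (by simp only [f, map_zero, zero_mul, zero_add]; compute_degree!)

lemma rkH (b c : K) : Module.Finite K (P 1 b c) ∧ Module.finrank K (P 1 b c) = 4 :=
  rk (by unfold f; compute_degree!)

noncomputable def μ (u : K) : P 0 1 1 ⊗[K] P 1 (1 + u ^ 2) (u ^ 2) →ₗ[K] E :=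
  LinearMap.mul' K E ∘ₗ TensorProduct.map (iA : _ →ₗ[K] _) (jH u : _ →ₗ[K] _)

@[simp] lemma μ_tmul (u : K) (a : P 0 1 1) (h : P 1 (1 + u ^ 2) (u ^ 2)) :
    μ u (a ⊗ₜ h) = iA a * jH u h := rfl

lemma iA_z : iA (z _ _ _) = g true := aeval_X _
lemma jH_z (u : K) : jH u (z _ _ _) = g true + u • g false := aeval_X _

lemma surj {u : K} (hu : u ≠ 0) : Surjective (μ u) := by
  have hx : ∀ e ∈ LinearMap.range (μ u), g true * e ∈ LinearMap.range (μ u) := by
    rintro _ ⟨t, rfl⟩
    refine ⟨z _ _ _ ⊗ₜ 1 * t, ?_⟩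
    induction t with
    | zero => simp
    | add _ _ h h' => simp only [mul_add, map_add, h, h']
    | tmul a h => simp [iA_z, mul_assoc]
  have hr : ∀ e ∈ LinearMap.range (μ u), (g true + u • g false) * e ∈ LinearMap.range (μ u) := by
    rintro _ ⟨t, rfl⟩
    induction t with
    | zero => simp
    | add _ _ h h' => simpa only [mul_add, map_add] using add_mem h h'
    | tmul a h =>
      have : a ∈ Algebra.adjoin K (Set.range (pP 0 1 1).g) := (pP 0 1 1).gen ▸ trivial
      suffices H : ∀ e ∈ LinearMap.range (μ u), (g true + u • g false) * e ∈ LinearMap.range (μ u) →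
          iA a * e ∈ LinearMap.range (μ u) ∧
            (g true + u • g false) * (iA a * e) ∈ LinearMap.range (μ u) from
        (H _ ⟨1 ⊗ₜ h, by simp⟩ ⟨1 ⊗ₜ (z _ _ _ * h), by simp [jH_z]⟩).2
      induction this using Algebra.adjoin_induction with
      | mem _ h =>
        obtain ⟨i, rfl⟩ := h
        rw [show iA ((pP 0 1 1).g i) = g true from iA_z]
        refine fun e h1 h2 => ⟨hx e h1, ?_⟩
        have : (g true + u • g false) * (g true * e) = g true * ((g true + u • g false) * e) +
            (g true + u • g false) * e + g true * e := by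
          simp only [← mul_assoc, ← add_mul]
          congr 1
          simp only [add_mul, mul_add, mul_smul_comm, smul_mul_assoc, relE.2.2, smul_add]
          linear_combination (norm := abel1) -two (u • g false) - two (g true)
        exact this ▸ add_mem (add_mem (hx _ h2) h2) (hx _ h1)
      | algebraMap r =>
        intro e h1 h2
        rw [Algebra.algebraMap_eq_smul_one, map_smul, map_one, smul_one_mul, mul_smul_comm]
        exact ⟨Submodule.smul_mem _ r h1, Submodule.smul_mem _ r h2⟩
      | add _ _ _ _ a b =>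
        intro e h1 h2
        rw [map_add, add_mul (iA _), mul_add]
        exact ⟨add_mem (a e h1 h2).1 (b e h1 h2).1, add_mem (a e h1 h2).2 (b e h1 h2).2⟩
      | mul _ _ _ _ a b =>
        simpa only [map_mul, mul_assoc] using fun e h1 h2 => a _ (b e h1 h2).1 (b e h1 h2).2
  have : ∀ a ∈ Algebra.adjoin K (Set.range pE.g), ∀ e ∈ LinearMap.range (μ u),
      a * e ∈ LinearMap.range (μ u) := fun a ha => by
    induction ha using Algebra.adjoin_induction with
    | mem _ h =>
      obtain ⟨_ | _, rfl⟩ := h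
      · intro e h
        simpa [add_mul, hu] using! Submodule.smul_mem _ u⁻¹ (sub_mem (hr e h) (hx e h))
      · exact hx
    | algebraMap r => exact fun e h => Algebra.smul_def r e ▸ Submodule.smul_mem _ r h
    | add _ _ _ _ a b => exact fun e h => add_mul _ _ e ▸ add_mem (a e h) (b e h)
    | mul _ _ _ _ a b => exact fun e h => mul_assoc _ _ e ▸ a _ (b e h)
  exact fun e => by
    simpa using this e (pE.gen ▸ trivial) 1 ⟨1 ⊗ₜ 1, by simp⟩

def mat : Bool → Matrix (Fin 4 × Fin 2) (Fin 4 × Fin 2) (ZMod 2)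
  | false => .of fun p q => if p = (if q.1 = 3 then 2 else q.1 + 1, q.2) then 1 else 0
  | true => .of fun p q => (if p = (q.1, 1) then 1 else 0) + if p = q then q.1.val else 0

lemma rkE [Module.Finite K E] : 8 ≤ Module.finrank K E := by
  have h : Rel (mat true) (mat false) := by unfold Rel; decide +kernel
  have h' : ∀ p q : Fin 4 × Fin 2, (mat false ^ q.1.val * mat true ^ q.2.val) p 0 =
    if p = q then 1 else 0 := by decide +kernel
  let φ := (algebraMap (ZMod 2) K).mapMatrix (m := Fin 4 × Fin 2)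
  let ρ := lE (fun b => φ (mat b)) ⟨by rw [← map_pow, h.1], by rw [← map_pow, h.2.1, map_pow],
    by rw [← map_mul, h.2.2, map_add, map_mul]⟩
  let L : E →ₗ[K] Fin 4 × Fin 2 → K := .pi fun p => Matrix.entryLinearMap K K p 0 ∘ₗ ρ.toLinearMap
  have hL : ∀ q : Fin 4 × Fin 2, L (g false ^ q.1.val * g true ^ q.2.val) = Pi.single q 1 :=
    fun q => funext fun p => by
      change ρ _ p 0 = _
      rw [map_mul, map_pow, map_pow, lE_g, lE_g, ← map_pow, ← map_pow, ← map_mul]
      simp [φ, h', Pi.single_apply]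
  simpa using LinearMap.finrank_le_finrank_of_surjective (f := L) (by
    rw [← LinearMap.range_eq_top, eq_top_iff, ← (Pi.basisFun K _).span_eq, Submodule.span_le]
    rintro _ ⟨q, rfl⟩
    exact ⟨_, by simpa using hL q⟩)

lemma bij {u : K} (hu : u ≠ 0) : Module.Finite K E ∧ Bijective (μ u) := by
  have := rkA.1
  have := (rkH (1 + u ^ 2) (u ^ 2)).1
  have := Module.Finite.of_surjective _ (surj hu)
  have h := LinearMap.finrank_le_finrank_of_surjective (surj hu)
  refine ⟨this, (LinearMap.injective_iff_surjective_of_finrank_eq_finrank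
    (h.antisymm' ?_)).2 (surj hu), surj hu⟩
  rw [Module.finrank_tensorProduct, rkA.2, (rkH _ _).2]
  exact rkE

lemma odd {p : (ZMod 2)[X]} (hp : Odd p.natDegree) (a : K) :
    a ^ 2 + a ≠ algebraMap _ K p := fun h => by
  obtain ⟨q, rfl⟩ := (IsIntegrallyClosed.isIntegral_iff (R := (ZMod 2)[X])).1
    (show IsIntegral _ a from ⟨X ^ 2 + X - C p, by monicity!, by simp [h]⟩)
  obtain rfl : q ^ 2 + q = p := RatFunc.algebraMap_injective _ (by simpa using h)
  rcases (natDegree q).eq_zero_or_pos with h0 | h0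
  · have := natDegree_add_le (q ^ 2) q
    have := hp.pos
    simp_all
  · rw [natDegree_add_eq_left_of_natDegree_lt (by simp; omega)] at hp
    simp [← Nat.not_even_iff_odd] at hp

noncomputable def t (n : ℕ) : K := algebraMap (ZMod 2)[X] K (X ^ (2 * n + 1))

lemma nt (n : ℕ) (a : K) : a ^ 2 + a ≠ t n ^ 2 := fun h =>
  odd (p := X ^ (2 * n + 1)) (by simp) (a + t n) (by
    change _ = t n
    linear_combination h + two (a * t n) + two (t n ^ 2))

lemma nt2 {m n : ℕ} (hne : m ≠ n) (a : K) : a ^ 2 + a ≠ t m ^ 2 + t n ^ 2 := fun h =>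
  odd (p := X ^ (2 * m + 1) + X ^ (2 * n + 1)) (by
    rcases hne.lt_or_gt with h | h
    · rw [natDegree_add_eq_right_of_natDegree_lt] <;> simp [h]
    · rw [natDegree_add_eq_left_of_natDegree_lt] <;> simp [h]) (a + t m + t n) (by
    rw [map_add]
    change _ = t m + t n
    linear_combination h + two (a * t m + a * t n + t m * t n + t m ^ 2 + t n ^ 2))

open QuadraticAlgebra in
lemma noiso {m n : ℕ} (hne : m ≠ n)
    (e : P 1 (1 + t m ^ 2) (t m ^ 2) ≃ₐ[K] P 1 (1 + t n ^ 2) (t n ^ 2)) : False := by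
  let ψ := (lf (a := 1) (b := 1 + t n ^ 2) (c := t n ^ 2) (ω : QuadraticAlgebra K (t n ^ 2) 1) (by
    ext <;> simp [pow_succ]
    · linear_combination two (t n ^ 2 + t n ^ 4)
    · linear_combination two (1 + 2 * t n ^ 2))).comp e.toAlgHom
  have h1 := congrArg ψ (hz _ _ _)
  simp only [map_add, map_smul, map_pow, map_zero] at h1
  have hb : (ψ (z _ _ _)).im ≠ 0 := fun h => by
    have : ∀ a ∈ Algebra.adjoin K (Set.range (pP _ _ _).g), (ψ a).im = 0 := fun a ha => by
      induction ha using Algebra.adjoin_induction with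
      | mem _ h' => obtain ⟨_, rfl⟩ := h'; exact h
      | algebraMap r => simp
      | add _ _ _ _ a b => simp [a, b]
      | mul _ _ _ _ a b => simp [a, b]
    simpa [ψ] using this (e.symm (z _ _ _)) ((pP _ _ _).gen ▸ trivial)
  generalize ψ (z _ _ _) = r at *
  obtain ⟨a, b⟩ := r
  have h2 := congrArg re h1
  have h3 := congrArg im h1
  simp [pow_succ] at h2 h3 hb
  have h0 : t m ≠ 0 := fun h => nt m 0 (by simp [h])
  have h4 : b * (b + 1) * (b ^ 2 + b + t m ^ 2) = 0 := by
    linear_combination h3 - two (2 * a ^ 3 * b + 3 * a ^ 2 * b ^ 2 + 2 * a * b ^ 3 + a * b +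
      6 * a * b ^ 3 * 0 + 2 * a * b ^ 3 * t n ^ 2 + b ^ 4 * t n ^ 2 + a * b * t m ^ 2 - b ^ 3)
  obtain rfl : b = 1 := by
    rcases mul_eq_zero.1 h4 with h | h
    · linear_combination (mul_eq_zero.1 h).resolve_left hb - two (1 : K)
    · exact absurd (by linear_combination h - two (t m ^ 2)) (nt m b)
  have h5 : (a ^ 2 + a + t n ^ 2) * (a ^ 2 + a + t n ^ 2 + t m ^ 2) = 0 := by
    linear_combination h2 - two (2 * a ^ 2 * t n ^ 2 + a * t n ^ 2 + t n ^ 2 - a ^ 3)
  rcases mul_eq_zero.1 h5 with h | h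
  · exact nt n a (by linear_combination h - two (t n ^ 2))
  · exact nt2 hne a (by linear_combination h - two (t n ^ 2 + t m ^ 2))

theorem result : ∃ (k : Type) (_ : Field k) (E : Type) (_ : Ring E) (_ : HopfAlgebra k E),
    Module.Finite k E ∧ ∃ (A : Sub k E) (H : ℕ → Sub k E),
      (∀ n, IsCompl A (H n)) ∧ ∀ m n, m ≠ n → ¬ Iso (H m) (H n) := by
  have h0 : ∀ m, t m ≠ 0 := fun m h => nt m 0 (by simp [h])
  have := Module.nontrivial_of_finrank_eq_succ rkA.2
  have := fun b c => Module.nontrivial_of_finrank_eq_succ (rkH b c).2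
  refine ⟨K, _, E, _, _, (bij (h0 0)).1, ⟨P 0 1 1, iA, fun a b h => ?_⟩,
    fun n => ⟨P 1 (1 + t n ^ 2) (t n ^ 2), jH (t n), fun a b h => ?_⟩, fun n => (bij (h0 n)).2,
    fun m n h e => e.elim fun e => noiso h e.toAlgEquiv⟩
  · exact Algebra.TensorProduct.includeLeft_injective (S := K) (algebraMap K _).injective
      ((bij (h0 0)).2.1 (by simpa using h))
  · exact Algebra.TensorProduct.includeRight_injective (algebraMap K _).injective
      ((bij (h0 n)).2.1 (by simpa using h))

end Pool.Agent.Results.MP_d8e1db_al.Infinite
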